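import Mathlib
import Pool.Agent.Helper93.AlmostSidon2

set_option autoImplicit false

namespace Pool.Agent.Results.MP_d9c72a_nt.ExceptionalSum

/-- `r_A(n)`: number of pairs `a ≤ b` in `A` with `a + b = n`. -/
def rep (A : Finset ℕ) (n : ℕ) : ℕ :=
  ((A ×ˢ A).filter (fun p => p.1 ≤ p.2 ∧ p.1 + p.2 = n)).card

/-- `L(N, n₀) = #{a ∈ {1,…,N} : n₀ - a ∈ {1,…,N}}`, i.e. `n₀ - 1` for `1 ≤ n₀ ≤ N + 1` and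
`max(2N + 1 - n₀, 0)` for `n₀ > N`. -/
def overlap (N n₀ : ℕ) : ℕ :=
  ((Finset.Icc 1 N).filter (fun a => a < n₀ ∧ n₀ ≤ a + N)).card

/-- Upper bounds for an almost Sidon set in terms of its exceptional sum `n₀`. -/
theorem result :
    (∀ (N : ℕ) (A : Finset ℕ) (n₀ : ℕ), A ⊆ Finset.Icc 1 N →
      (∀ n, n ≠ n₀ → rep A n ≤ 1) →
      (A.card : ℝ) ^ 2 ≤ N + overlap N n₀ + 16 * (N : ℝ) ^ (3 / 4 : ℝ) ∧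
      (A.card : ℝ) ≤ Real.sqrt N + (2 - Real.sqrt 2) * rep A n₀ + 3 * (N : ℝ) ^ (1 / 4 : ℝ)) ∧
    (∀ ε : ℝ, 0 < ε → ∃ N₀ : ℕ, ∀ N : ℕ, N₀ ≤ N → ∀ A : Finset ℕ,
      A ⊆ Finset.Icc 1 N → ∀ n₀ : ℕ, (∀ n, n ≠ n₀ → rep A n ≤ 1) →
      (3 * n₀ ≤ N ∨ 5 * N ≤ 3 * n₀ ∨
        (rep A n₀ : ℝ) ≤ (2 / Real.sqrt 3 - 1) / (2 - Real.sqrt 2) * Real.sqrt N) →
      (A.card : ℝ) ≤ (1 + ε) * (2 / Real.sqrt 3) * Real.sqrt N) := by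
  refine ⟨?_, ?_⟩
  · intro N A n₀ hA h
    exact Helper93.AS.bounds hA h
  · intro ε hε
    exact Helper93.AS.conj_cases ε hε

end Pool.Agent.Results.MP_d9c72a_nt.ExceptionalSum
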